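import Mathlib
import Pool.Agent.H906R3.YM.Conc
import Pool.Agent.W793.YM.Inf
import Pool.Agent.TH618.YM.Cartan
import Pool.Agent.R990.SC.Unif

/-!
# Continuum limits of the static potential of lattice Yang-Mills theory at the Sommer scale

Wilson's lattice gauge theory in dimension `d ≥ 4`, gauge group any closed subgroup of `U(N)`, in the
infinite volume, at weak 't Hooft coupling `lam = N / β`. Let `V(R)` be the static potential, and for
`κ > 0` let the (Sommer) scale `ξ` be the least `R ≥ 1` with `R² (V(R+1) - V(R)) ≥ κ`. The scale is at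
least `c min(1, κ) / lam`. If there is no such `R`, then the force is at most `κ / R²` at all
distances `R` and `V` is bounded. For any theories with `lam → 0` and finite scales the potentials in
physical units, `ξ (V(r ξ) - V(ξ))`, have limits along a subsequence: a concave, nonconstant function
`v` of `r > 0`, with a singularity of at most Coulomb type at `0`.
-/

open MeasureTheory Matrix Filter
open scoped Matrix.Norms.Frobenius Topology ContDiff

namespace Pool.Agent.Results.MP_7f377f_mp.ContinuumStaticPotential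

set_option linter.unusedSectionVars false

noncomputable section

/-- Complex `N × N` matrices. -/
abbrev Mt (N : ℕ) := Matrix (Fin N) (Fin N) ℂ

/-- The unitary group `U(N)`. -/
abbrev UU (N : ℕ) := Matrix.unitaryGroup (Fin N) ℂ

/-- The matrix of an element of a subgroup of `U(N)`. -/
def mt {N : ℕ} {G : Subgroup (UU N)} (g : G) : Mt N := ((g : UU N) : Mt N)

/-- Links of the periodic lattice `(ℤ/l)^d`: base point and direction. -/
abbrev Link (d l : ℕ) := (Fin d → ZMod l) × Fin d

/-- Links of the lattice `ℤ^d`: base point and direction. -/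
abbrev LinkZ (d : ℕ) := (Fin d → ℤ) × Fin d

section

variable {N n d l : ℕ} {G : Subgroup (UU N)}

/-- The product of the link variables around the plaquette at `x` in the directions `i`, `j`. -/
def plaq (U : Link d l → G) (x : Fin d → ZMod l) (i j : Fin d) : G :=
  U (x, i) * U (x + Pi.single i 1, j) * (U (x + Pi.single j 1, i))⁻¹ * (U (x, j))⁻¹

/-- The Wilson action `∑_p Re tr (1 - U_p)`, the sum over the plaquettes. -/
def action [NeZero l] (U : Link d l → G) : ℝ :=
  ∑ x : Fin d → ZMod l, ∑ i : Fin d, ∑ j : Fin d,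
    if i < j then (trace (1 - mt (plaq U x i j))).re else 0

/-- The periodic extension of a configuration. -/
def per (U : Link d l → G) : LinkZ d → G := fun e => U (fun i => (e.1 i : ZMod l), e.2)

/-- The expectation of `F` in the lattice Yang-Mills theory on `(ℤ/l)^d`, `μ` being the Haar
measure. -/
def expect (l : ℕ) [NeZero l] [MeasurableSpace G] (μ : Measure G) (β : ℝ)
    (F : (LinkZ d → G) → ℝ) : ℝ :=
  (∫ U : Link d l → G, F (per U) * Real.exp (-(β * action U)) ∂(Measure.pi fun _ => μ)) /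
    ∫ U : Link d l → G, Real.exp (-(β * action U)) ∂(Measure.pi fun _ => μ)

/-- `ν` is an infinite volume limit (weak limit along a subsequence) of the theories on the tori of
even side at inverse coupling `β`. -/
structure IsInfVol [MeasurableSpace G] (μ : Measure G) (β : ℝ)
    (ν : Measure (LinkZ d → G)) : Prop where
  prob : IsProbabilityMeasure ν
  lim : ∃ s : ℕ → ℕ, Tendsto s atTop atTop ∧ ∀ F : (LinkZ d → G) → ℝ, Continuous F →
    Tendsto (fun j => expect (2 * (s j + 1)) μ β F) atTop (𝓝 (∫ V, F V ∂ν))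

/-- The product of the link variables along the path of `k` steps in the direction `i` from `x`. -/
def line (V : LinkZ d → G) (i : Fin d) : ℕ → (Fin d → ℤ) → G
  | 0, _ => 1
  | k + 1, x => V (x, i) * line V i k (x + Pi.single i 1)

/-- The product of the link variables around the rectangle with corner `x` and with the sides `R`
in the direction `i` and `T` in the direction `j`. -/
def loop (V : LinkZ d → G) (x : Fin d → ℤ) (i j : Fin d) (R T : ℕ) : G :=
  line V i R x * line V j T (x + Pi.single i (R : ℤ)) *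
    (line V i R (x + Pi.single j (T : ℤ)))⁻¹ * (line V j T x)⁻¹

/-- The Wilson loop: the expectation of `(1/N) Re tr` of the product around the rectangle. -/
def wilson [MeasurableSpace G] (ν : Measure (LinkZ d → G)) (x : Fin d → ℤ) (i j : Fin d)
    (R T : ℕ) : ℝ := ∫ V, (trace (mt (loop V x i j R T))).re / N ∂ν

end

section

variable {N d : ℕ} {G : Subgroup (UU N)}

/-- `V` is a static potential of the theory at inverse coupling `β`, `μ` being the Haar measure:
`V(R) = - lim_T (1/T) log W(R,T)` for the rectangles in the directions `i`, `j` in some infinite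
volume limit. -/
def StaticPotential [MeasurableSpace G] (μ : Measure G) (β : ℝ) (i j : Fin d) (V : ℕ → ℝ) : Prop :=
  ∃ ν : Measure (LinkZ d → G), IsInfVol μ β ν ∧
    ∀ R : ℕ, Tendsto (fun T : ℕ => -Real.log (wilson ν 0 i j R T) / T) atTop (𝓝 (V R))

end

/-- `V` is a static potential of one of the theories in dimension `d`: of the theory with some gauge
group `G`, a closed subgroup of `U(N)`, `N ≥ 1`, at 't Hooft coupling `lam = N / β`. -/
def IsPotential (d : ℕ) (lam : ℝ) (V : ℕ → ℝ) : Prop :=
  ∃ N : ℕ, 1 ≤ N ∧ ∃ G : Subgroup (UU N), IsClosed (G : Set (UU N)) ∧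
    ∃ (_ : MeasurableSpace G) (_ : BorelSpace G) (μ : Measure G) (β : ℝ) (i j : Fin d),
      IsProbabilityMeasure μ ∧ μ.IsHaarMeasure ∧ 0 < β ∧ lam = N / β ∧ i ≠ j ∧
        StaticPotential μ β i j V

/-- The force `V(R+1) - V(R)` at the distance `R` is at least `κ / R²`. -/
def AtScale (κ : ℝ) (V : ℕ → ℝ) (R : ℕ) : Prop := 1 ≤ R ∧ κ ≤ (R : ℝ) ^ 2 * (V (R + 1) - V R)

/-- The Sommer scale: the least distance `R ≥ 1` at which the force is at least `κ / R²`. -/
noncomputable def scale (κ : ℝ) (V : ℕ → ℝ) : ℕ := sInf {R | AtScale κ V R}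

/-- The potential in units of the scale `ξ`, normalised to be `0` at the distance `ξ`:
`ξ (V(r ξ) - V(ξ))`. -/
noncomputable def rescaled (V : ℕ → ℝ) (ξ : ℕ) (r : ℝ) : ℝ := ξ * (V ⌊r * ξ⌋₊ - V ξ)

open Pool.Agent.H906R3 Pool.Agent.W793 Pool.Agent.TH618 Pool.Agent

variable {N n d l : ℕ} {G : Subgroup (UU N)}

/-- A Haar probability measure is invariant under right multiplications. -/
lemma right_inv {H : Type*} [Group H] [TopologicalSpace H] [IsTopologicalGroup H]
    [CompactSpace H] [MeasurableSpace H] [BorelSpace H] (μ : Measure H)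
    [IsProbabilityMeasure μ] [μ.IsHaarMeasure] : μ.IsMulRightInvariant := by
  refine ⟨fun g => ?_⟩
  have h1 : IsProbabilityMeasure (Measure.map (fun x => x * g) μ) :=
    Measure.isProbabilityMeasure_map (measurable_mul_const g).aemeasurable
  exact Measure.isHaarMeasure_eq_of_isProbabilityMeasure _ _

/-- A Haar probability measure is invariant under the inversion. -/
lemma inv_inv' {H : Type*} [Group H] [TopologicalSpace H] [IsTopologicalGroup H]
    [CompactSpace H] [MeasurableSpace H] [BorelSpace H] (μ : Measure H)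
    [IsProbabilityMeasure μ] [μ.IsHaarMeasure] : μ.IsInvInvariant := by
  have hr := right_inv μ
  refine ⟨?_⟩
  have h1 : IsProbabilityMeasure μ.inv :=
    Measure.isProbabilityMeasure_map measurable_inv.aemeasurable
  have h2 : μ.inv.IsMulLeftInvariant := inferInstance
  have h3 : μ.inv.IsHaarMeasure :=
    Measure.isHaarMeasure_of_isCompact_nonempty_interior μ.inv Set.univ isCompact_univ
      (by simp) (by simp) (by simp)
  exact Measure.isHaarMeasure_eq_of_isProbabilityMeasure _ _

lemma action_eq [NeZero l] (B : YM.Frame G n) (U : Link d l → G) :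
    action U = YM.act B.toLD U := rfl

section bridge

variable [CompactSpace G] [SecondCountableTopology G] [MeasurableSpace G] [BorelSpace G]
  (μ : Measure G) [IsProbabilityMeasure μ] [μ.IsHaarMeasure] (B : YM.Frame G n)

lemma expect_eq [NeZero l] (β : ℝ) (F : (LinkZ d → G) → ℝ) : expect l μ β F =
    YM.EX μ B.toLD β (fun U : YM.Ed d l → G => F (YM.lf U)) := by
  unfold expect YM.EX YM.Zt
  simp only [one_mul]
  rfl

include B in
lemma action_cont [NeZero l] : Continuous (action : (Link d l → G) → ℝ) :=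
  YM.act_cont (L := B.toLD)

include B in
/-- existence of infinite volume limits -/
lemma exists_infVol (β : ℝ) : ∃ ν : Measure (LinkZ d → G), IsInfVol μ β ν := by
  have hP : ∀ j : ℕ, ∃ P : ProbabilityMeasure (LinkZ d → G),
      ∀ F : (LinkZ d → G) → ℝ, Continuous F →
        ∫ V, F V ∂(P : Measure (LinkZ d → G)) = expect (2 * (j + 1)) μ β F := by
    intro j
    have hper : Continuous (per : (Link d (2 * (j + 1)) → G) → LinkZ d → G) :=
      continuous_pi fun e => continuous_apply _
    have hexp : Continuous fun U : Link d (2 * (j + 1)) → G =>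
        Real.exp (-(β * action U)) :=
      Real.continuous_exp.comp (continuous_const.mul (action_cont B)).neg
    have hint : Integrable (fun U : Link d (2 * (j + 1)) → G =>
        Real.exp (-(β * action U))) (Measure.pi fun _ => μ) :=
      hexp.integrable_of_hasCompactSupport (HasCompactSupport.of_compactSpace _)
    have h1 := isProbabilityMeasure_tilted (f := fun U : Link d (2 * (j + 1)) → G =>
      -(β * action U)) hint
    refine ⟨⟨((Measure.pi fun _ => μ).tilted fun U : Link d (2 * (j + 1)) → G =>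
      -(β * action U)).map per, Measure.isProbabilityMeasure_map hper.aemeasurable⟩,
      fun F hF => ?_⟩
    show ∫ V, F V ∂(((Measure.pi fun _ => μ).tilted fun U : Link d (2 * (j + 1)) → G =>
      -(β * action U)).map per) = _
    rw [integral_map hper.aemeasurable hF.aestronglyMeasurable, integral_tilted]
    unfold expect
    rw [← integral_div]
    refine integral_congr_ae (Filter.Eventually.of_forall fun U => ?_)
    simp only [smul_eq_mul]
    ring
  choose P hP using hP
  obtain ⟨ν, s, hs, hlim⟩ := CompactSpace.tendsto_subseq P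
  refine ⟨ν, ⟨inferInstance, s, hs.tendsto_atTop, fun F hF => ?_⟩⟩
  have h1 := (ProbabilityMeasure.tendsto_iff_forall_integral_tendsto.1 hlim)
    (BoundedContinuousFunction.mkOfCompact ⟨F, hF⟩)
  simp only [Function.comp_apply, BoundedContinuousFunction.mkOfCompact_apply,
    ContinuousMap.coe_mk] at h1
  simpa only [hP _ F hF] using h1

/-- straight lines in a periodic configuration -/
lemma line_lf (U : YM.Ed d l → G) (i : Fin d) (k : ℕ) (x : Fin d → ℤ) :
    line (YM.lf U) i k x = YM.ln U i k (YM.zt l x) := by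
  induction k generalizing x with
  | zero => rfl
  | succ k ih =>
    rw [YM.ln_succ]
    show YM.lf U (x, i) * line (YM.lf U) i k (x + Pi.single i 1) = _
    rw [ih, YM.zt_add]
    rfl

lemma zt_nsmul (x : Fin d → ℤ) (i : Fin d) (k : ℕ) :
    YM.zt l (x + Pi.single i (k : ℤ)) = YM.zt l x + k • YM.eT i := by
  funext j
  unfold YM.zt YM.eT
  by_cases h : j = i
  · subst h; simp
  · simp [h]

lemma loop_lf (U : YM.Ed d l → G) (x : Fin d → ℤ) (i j : Fin d) (R T : ℕ) :
    loop (YM.lf U) x i j R T = YM.rect U (YM.zt l x) i j R T := by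
  unfold loop YM.rect
  rw [line_lf, line_lf, line_lf, line_lf, zt_nsmul, zt_nsmul]

lemma line_cont (i : Fin d) (k : ℕ) (x : Fin d → ℤ) :
    Continuous fun V : LinkZ d → G => line V i k x := by
  induction k generalizing x with
  | zero => exact continuous_const
  | succ k ih => exact (continuous_apply _).mul (ih _)

lemma loop_cont (x : Fin d → ℤ) (i j : Fin d) (R T : ℕ) :
    Continuous fun V : LinkZ d → G => (trace (mt (loop V x i j R T))).re / N := by
  have h1 : Continuous fun V : LinkZ d → G => loop V x i j R T :=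
    (((line_cont _ _ _).mul (line_cont _ _ _)).mul (line_cont _ _ _).inv).mul (line_cont _ _ _).inv
  have h2 : Continuous (mt : G → Mt N) := continuous_subtype_val.comp continuous_subtype_val
  exact (Complex.continuous_re.comp (h2.comp h1).matrix_trace).div_const _

lemma expect_loop [NeZero l] (β : ℝ) (x : Fin d → ℤ) (i j : Fin d) (R T : ℕ) :
    expect l μ β (fun V : LinkZ d → G => (trace (mt (loop V x i j R T))).re / N) =
      YM.EX μ B.toLD β (fun U : YM.Ed d l → G => YM.rt B.toLD (YM.rect U 0 i j R T)) / N := by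
  have := right_inv μ
  have := inv_inv' μ
  rw [expect_eq μ B]
  have h1 : (fun U : YM.Ed d l → G => (trace (mt (loop (YM.lf U) x i j R T))).re / N) =
      fun U => (1 / (N : ℝ)) * YM.rt B.toLD (YM.rect (YM.tr (YM.zt l x) U) 0 i j R T) := by
    funext U
    rw [loop_lf, YM.rect_tr, zero_add, div_eq_mul_one_div, mul_comm]
    rfl
  rw [h1, YM.EX_smul, YM.EX_tr μ (YM.zt l x)
    (fun U : YM.Ed d l → G => YM.rt B.toLD (YM.rect U 0 i j R T))]
  ring

end bridge

/-- the static potential exists, and it is a concave sequence -/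
theorem exists_pot {N d : ℕ} (hN : 1 ≤ N) (hd : 4 ≤ d) {G : Subgroup (UU N)}
    (hG : IsClosed (G : Set (UU N))) [MeasurableSpace G] [BorelSpace G] (μ : Measure G)
    [IsProbabilityMeasure μ] [μ.IsHaarMeasure] {β : ℝ} (hβ : 0 < β)
    (hc : (N : ℝ) / β ≤ (4 * 450000000)⁻¹) {i j : Fin d} (hij : i ≠ j) :
    (∃ ν : Measure (LinkZ d → G), IsInfVol μ β ν) ∧
    ∀ ν : Measure (LinkZ d → G), IsInfVol μ β ν → ∃ (P : ℕ → ℝ) (σ : ℝ), R990.SC.Cv P σ ∧
      (∀ R, Tendsto (fun T : ℕ => -Real.log (wilson ν 0 i j R T) / T) atTop (𝓝 (P R))) ∧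
      ∀ R : ℕ, P R ≤ R990.SC.CC * (N / β) + R990.SC.CC * (N / β) ^ 2 * R := by
  have hb3 : 4 * 450000000 * ((N : ℝ) / β) ≤ 1 := by
    have h1 := mul_le_mul_of_nonneg_left hc (show (0 : ℝ) ≤ 4 * 450000000 by positivity)
    rwa [mul_inv_cancel₀ (by positivity)] at h1
  have : CompactSpace G := by
    have h1 : IsCompact (G : Set (UU N)) := hG.isCompact
    exact isCompact_iff_compactSpace.1 h1
  have h00 : SecondCountableTopology (UU N) := TopologicalSpace.Subtype.secondCountableTopology _
  have : SecondCountableTopology G := TopologicalSpace.Subtype.secondCountableTopology _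
  have := right_inv μ
  have := inv_inv' μ
  obtain ⟨n, ⟨B⟩⟩ := YM.exists_frame hG
  refine ⟨exists_infVol μ B β, fun ν hν => ?_⟩
  obtain ⟨s, hs, hlim⟩ := hν.lim
  have hw : ∀ (x : Fin d → ℤ) (R T : ℕ),
      Tendsto (fun k => YM.wR2 μ B.toLD (s k + 1) β i j R T) atTop (𝓝 (wilson ν x i j R T)) := by
    intro x R T
    refine (hlim _ (loop_cont x i j R T)).congr fun k => ?_
    exact expect_loop μ B β x i j R T
  exact R990.SC.pot_cv μ (L := B.toLD) hd hN hβ hb3 hij
    (w := fun R T => wilson ν 0 i j R T) hs (fun R T => hw 0 R T)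

theorem cv_of_isPotential {d : ℕ} (hd : 4 ≤ d) {lam : ℝ} {V : ℕ → ℝ} (hV : IsPotential d lam V)
    (hc : lam ≤ (4 * 450000000)⁻¹) : ∃ σ, R990.SC.Cv V σ ∧ 0 < lam ∧
      ∀ R : ℕ, V R ≤ R990.SC.CC * lam + R990.SC.CC * lam ^ 2 * R := by
  obtain ⟨N, hN, G, hG, _, _, μ, β, i, j, _, _, hβ, rfl, hij, ν, hν, hlim⟩ := hV
  obtain ⟨P, σ, h1, h2, h3⟩ := (exists_pot hN hd hG μ hβ hc hij).2 ν hν
  have hP : P = V := funext fun R => tendsto_nhds_unique (h2 R) (hlim R)
  subst hP
  have hN0 : (0 : ℝ) < N := by exact_mod_cast hN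
  exact ⟨σ, h1, by positivity, h3⟩

/-- There is an absolute constant `c > 0` with the following properties.

* The static potentials exist in dimension `d ≥ 4` for all groups at 't Hooft coupling
  `lam = N / β ≤ c`.
* For every static potential `V` in dimension `d ≥ 4` at `lam ≤ c` and every `κ > 0`, the force
  `V(R+1) - V(R)` can be at least `κ / R²` only at the distances `R ≥ c min(1, κ) / lam`.
* Let `κ > 0` and let `V_k` be static potentials of such theories, the dimensions, the groups and
  their sizes `N` being arbitrary, with couplings `lam_k → 0`. Either for all large `k` the potential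
  `V_k` is bounded, with `V_k(R'+1) - V_k(R+1) ≤ κ / R` for all `R' ≥ R ≥ 1`; or there is a
  subsequence with finite scales `ξ_k → ∞` along which `ξ_k (V_k(r ξ_k) - V_k(ξ_k))` converges
  locally uniformly in `r > 0` to a concave nondecreasing function `v` with `v(1) = 0`,
  `κ (b - a) ≤ v(b) - v(a) ≤ κ (1/a - 1/b)` for `a ≤ b ≤ 1` and `v(b) - v(a) ≤ κ (b - a)` for
  `1 ≤ a ≤ b`; and if the string tensions `σ_k` satisfy `ξ_k² σ_k ≥ s` for all large `k` then
  `v(b) - v(a) ≥ s (b - a)` for all `a ≤ b`. -/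
theorem result : ∃ c : ℝ, 0 < c ∧
    (∀ N : ℕ, 1 ≤ N → ∀ d : ℕ, 4 ≤ d → ∀ G : Subgroup (UU N), IsClosed (G : Set (UU N)) →
      ∀ [MeasurableSpace G] [BorelSpace G] (μ : Measure G) [IsProbabilityMeasure μ]
        [μ.IsHaarMeasure] (β : ℝ), 0 < β → N / β ≤ c → ∀ i j : Fin d, i ≠ j →
        ∃ V : ℕ → ℝ, StaticPotential μ β i j V) ∧
    (∀ (d : ℕ) (lam : ℝ) (V : ℕ → ℝ), 4 ≤ d → lam ≤ c → IsPotential d lam V →
      ∀ κ : ℝ, 0 < κ → ∀ R, AtScale κ V R → c * min 1 κ / lam ≤ R) ∧
    ∀ κ : ℝ, 0 < κ → ∀ (d : ℕ → ℕ) (lam : ℕ → ℝ) (V : ℕ → ℕ → ℝ), (∀ k, 4 ≤ d k) →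
      (∀ k, IsPotential (d k) (lam k) (V k)) → Tendsto lam atTop (𝓝 0) →
      (∀ᶠ k in atTop, ∀ R R' : ℕ, 1 ≤ R → R ≤ R' → V k (R' + 1) - V k (R + 1) ≤ κ / R) ∨
      ∃ φ : ℕ → ℕ, StrictMono φ ∧
        (∀ k, AtScale κ (V (φ k)) (scale κ (V (φ k)))) ∧
        Tendsto (fun k => scale κ (V (φ k))) atTop atTop ∧
        ∃ v : ℝ → ℝ,
          TendstoLocallyUniformlyOn (fun k r => rescaled (V (φ k)) (scale κ (V (φ k))) r) v
            atTop (Set.Ioi 0) ∧
          v 1 = 0 ∧ ConcaveOn ℝ (Set.Ioi 0) v ∧ MonotoneOn v (Set.Ioi 0) ∧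
          (∀ a b : ℝ, 0 < a → a ≤ b → b ≤ 1 →
            κ * (b - a) ≤ v b - v a ∧ v b - v a ≤ κ * (1 / a - 1 / b)) ∧
          (∀ a b : ℝ, 1 ≤ a → a ≤ b → v b - v a ≤ κ * (b - a)) ∧
          ∀ (s : ℝ) (σ : ℕ → ℝ),
            (∀ k, Tendsto (fun R : ℕ => V (φ k) R / R) atTop (𝓝 (σ k))) →
            (∀ᶠ k in atTop, s ≤ (scale κ (V (φ k)) : ℝ) ^ 2 * σ k) →
            ∀ a b : ℝ, 0 < a → a ≤ b → s * (b - a) ≤ v b - v a := by
  have hC := R990.SC.CC_one
  have hc1 : (2 * R990.SC.CC)⁻¹ ≤ (4 * 450000000)⁻¹ := by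
    refine inv_anti₀ (by norm_num) ?_
    unfold R990.SC.CC
    norm_num
  refine ⟨(2 * R990.SC.CC)⁻¹, by positivity, ?_, ?_, ?_⟩
  · intro N hN d hd G hG _ _ μ _ _ β hβ hc i j hij
    obtain ⟨⟨ν, hν⟩, h⟩ := exists_pot hN hd hG μ hβ (hc.trans hc1) hij
    obtain ⟨P, σ, -, h2, -⟩ := h ν hν
    exact ⟨P, ν, hν, h2⟩
  · intro d lam V hd hc hV κ hκ R hR
    obtain ⟨σ, h1, h2, h3⟩ := cv_of_isPotential hd hV (hc.trans hc1)
    rw [div_le_iff₀ h2]
    have := h1.scale_large hκ h2 h3 hR
    linarith
  · intro κ hκ d lam V hd hV hlam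
    by_cases hcase : ∀ᶠ k in atTop, ¬ ∃ R, AtScale κ (V k) R
    · left
      filter_upwards [hcase] with k hk R R' hR hR'
      exact R990.SC.no_scale hκ (fun R h => hk ⟨R, h⟩) hR hR'
    · right
      have hfr : ∃ᶠ k in atTop, ∃ R, AtScale κ (V k) R := hcase
      obtain ⟨ψ, hψ, hex⟩ := extraction_of_frequently_atTop hfr
      obtain ⟨h0, φ, hφ, v, h1, h2, h3, h4, h5, h6, h7⟩ :=
        R990.SC.weak hκ (V := fun k => V (ψ k)) (lam := fun k => lam (ψ k))
          (show (0 : ℝ) < (4 * 450000000)⁻¹ by positivity)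
          (fun k hk => cv_of_isPotential (hd (ψ k)) (hV (ψ k)) hk)
          (hlam.comp hψ.tendsto_atTop) hex
      exact ⟨fun k => ψ (φ k), hψ.comp hφ, fun k => Nat.sInf_mem (hex (φ k)),
        h0.comp hφ.tendsto_atTop, v, h1, h2, h3, h4, h5, h6, h7⟩

end

end Pool.Agent.Results.MP_7f377f_mp.ContinuumStaticPotential
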