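import Mathlib
import Pool.Agent.Y14.Defs
import Pool.Agent.H906R3.YM.Conc
import Pool.Agent.R990.TG.Cen

/-!
# Lattice Yang-Mills theory: an upper bound of the mass gap in a finite volume

Wilson's lattice gauge theory on the spatial torus `(ℤ/l)^D`, `l = 2 m`, with gauge group a closed
subgroup `G` of `U(N)` which contains a scalar matrix `ζ ≠ 1` (for example `SU(N)`, `N ≥ 2`, or
`U(N)`), in the Hamiltonian form: the transfer matrix `T` in the temporal gauge acts on the functions
of the `D l^D` spatial link variables; the dimension of the space-time is `d = D + 1`. There are a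
number `lam > 0` and a continuous strictly positive function `Om` with `T Om = lam Om`, and
`⟨f, T f⟩ ≤ lam ⟨f, f⟩` for all continuous `f`. If `1 ≤ r ≤ l` and `23040 N D ^ 4 m r ≤ β` then there
is a gauge invariant continuous `f ≠ 0` orthogonal to `Om` with
`⟨f, T f⟩ ≥ (1 - 24 N m / (β r ^ (D - 1))) lam ⟨f, f⟩`. Hence the mass gap of the transfer matrix is
at most `25 N m / (β r ^ (D - 1))`.
-/

open MeasureTheory Matrix Filter Pool.Agent.Y14.Wilson
open scoped Matrix.Norms.Frobenius Topology

namespace Pool.Agent.Results.MP_7f377f_mp.FiniteVolumeGap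

set_option linter.unusedSectionVars false

noncomputable section

section defs

variable {N D l : ℕ} {G : Subgroup (UU N)}

/-- Gauge transformation of the spatial link variables. -/
def gauge (γ : (Fin D → ZMod l) → G) (U : Link D l → G) : Link D l → G :=
  fun e => γ e.1 * U e * (γ (e.1 + Pi.single e.2 1))⁻¹

/-- The kernel of the transfer matrix: one time step between the configurations `U` and `U'` of two
neighbouring time slices, in the temporal gauge. -/
def kernel [NeZero l] (β : ℝ) (U U' : Link D l → G) : ℝ :=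
  Real.exp (-(β * ((∑ e : Link D l, (trace (1 - mt (U e * (U' e)⁻¹))).re) +
    (action U + action U') / 2)))

variable [MeasurableSpace G]

/-- The integral over the configurations of one time slice, `μ` being the Haar measure. -/
def integ [NeZero l] (μ : Measure G) (F : (Link D l → G) → ℝ) : ℝ :=
  ∫ U : Link D l → G, F U ∂(Measure.pi fun _ => μ)

/-- The transfer matrix. -/
def transfer [NeZero l] (μ : Measure G) (β : ℝ) (f : (Link D l → G) → ℝ)
    (U : Link D l → G) : ℝ :=
  integ μ fun U' => kernel β U U' * f U'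

/-- The vacuum `Om`: a continuous strictly positive eigenfunction of the transfer matrix with the
eigenvalue `lam`, the top of the spectrum. -/
structure IsVacuum [NeZero l] (μ : Measure G) (β lam : ℝ) (Om : (Link D l → G) → ℝ) : Prop where
  lam_pos : 0 < lam
  cont : Continuous Om
  pos : ∀ U, 0 < Om U
  eig : ∀ U, transfer μ β Om U = lam * Om U
  top : ∀ f : (Link D l → G) → ℝ, Continuous f →
    integ μ (fun U => f U * transfer μ β f U) ≤ lam * integ μ fun U => f U ^ 2

/-- The physical states orthogonal to the vacuum: continuous gauge invariant functions. -/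
structure IsExcited [NeZero l] (μ : Measure G) (Om f : (Link D l → G) → ℝ) : Prop where
  cont : Continuous f
  inv : ∀ γ U, f (gauge γ U) = f U
  orth : integ μ (fun U => f U * Om U) = 0

/-- The mass gap is at least `M`: the transfer matrix is at most `exp (-M) lam` on the physical
states orthogonal to the vacuum. -/
def GapAtLeast [NeZero l] (μ : Measure G) (β lam : ℝ) (Om : (Link D l → G) → ℝ) (M : ℝ) : Prop :=
  ∀ f, IsExcited μ Om f →
    integ μ (fun U => f U * transfer μ β f U) ≤ Real.exp (-M) * lam * integ μ fun U => f U ^ 2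

end defs

open Pool.Agent.H906R3 Pool.Agent

/-- the data of the previous files -/
def ld {N : ℕ} (G : Subgroup (UU N)) : YM.LD G N 0 where
  rho := YM.rhoG G
  cont := YM.rhoG_cont
  unit := YM.rhoG_unit
  X := fun a => a.elim0
  ex := fun a => a.elim0
  ex_add := fun a => a.elim0
  deriv_ex := fun a => a.elim0
  orth := fun a => a.elim0
  conj_mem := fun _ a => a.elim0
  brk_mem := fun a => a.elim0

lemma right_inv {H : Type*} [Group H] [TopologicalSpace H] [IsTopologicalGroup H]
    [CompactSpace H] [MeasurableSpace H] [BorelSpace H] (μ : Measure H)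
    [IsProbabilityMeasure μ] [μ.IsHaarMeasure] : μ.IsMulRightInvariant := by
  refine ⟨fun g => ?_⟩
  have h1 : IsProbabilityMeasure (Measure.map (fun x => x * g) μ) :=
    Measure.isProbabilityMeasure_map (measurable_mul_const g).aemeasurable
  exact Measure.isHaarMeasure_eq_of_isProbabilityMeasure _ _

lemma inv_inv' {H : Type*} [Group H] [TopologicalSpace H] [IsTopologicalGroup H]
    [CompactSpace H] [MeasurableSpace H] [BorelSpace H] (μ : Measure H)
    [IsProbabilityMeasure μ] [μ.IsHaarMeasure] : μ.IsInvInvariant := by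
  have hr := right_inv μ
  refine ⟨?_⟩
  have h1 : IsProbabilityMeasure μ.inv :=
    Measure.isProbabilityMeasure_map measurable_inv.aemeasurable
  have h2 : μ.inv.IsMulLeftInvariant := inferInstance
  have h3 : μ.inv.IsHaarMeasure :=
    Measure.isHaarMeasure_of_isCompact_nonempty_interior μ.inv Set.univ isCompact_univ
      (by simp) (by simp) (by simp)
  exact Measure.isHaarMeasure_eq_of_isProbabilityMeasure _ _

lemma kernel_eq {N D l : ℕ} [NeZero l] {G : Subgroup (UU N)} (β : ℝ) (U U' : Link D l → G) :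
    kernel β U U' = R990.TG.KK (ld G) β U U' := rfl

theorem result {N D m r : ℕ} [NeZero (2 * m)] (G : Subgroup (UU N))
    (hG : IsClosed (G : Set (UU N))) (z : G) (ζ : ℂ) (hζ : mt z = ζ • (1 : Mt N)) (hζ1 : ζ ≠ 1)
    (hN : 1 ≤ N) (hD : 1 ≤ D) (hm : 2 ≤ m) (hr : 1 ≤ r) (hr2 : r ≤ 2 * m)
    [MeasurableSpace G] [BorelSpace G] (μ : Measure G) [IsProbabilityMeasure μ] [μ.IsHaarMeasure]
    {β : ℝ} (hβ : 0 < β) (hc : 23040 * N * D ^ 4 * (m * r) ≤ β) :
    ∃ (lam : ℝ) (Om : (Link D (2 * m) → G) → ℝ), IsVacuum μ β lam Om ∧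
      (∃ f, IsExcited μ Om f ∧ 0 < integ μ (fun U => f U ^ 2) ∧
        (1 - 24 * N * m / (β * r ^ (D - 1))) * lam * integ μ (fun U => f U ^ 2) ≤
          integ μ fun U => f U * transfer μ β f U) ∧
      ∀ M, GapAtLeast μ β lam Om M → M ≤ 25 * N * m / (β * r ^ (D - 1)) := by
  have hmz : NeZero m := ⟨by omega⟩
  have : CompactSpace G := by
    have h1 : IsCompact (G : Set (UU N)) := hG.isCompact
    exact isCompact_iff_compactSpace.1 h1
  have h00 : SecondCountableTopology (UU N) := TopologicalSpace.Subtype.secondCountableTopology _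
  have : SecondCountableTopology G := TopologicalSpace.Subtype.secondCountableTopology _
  have := right_inv μ
  have := inv_inv' μ
  have hz : ∀ g : G, z * g = g * z := by
    intro g
    apply Subtype.ext
    apply Subtype.ext
    have h1 : mt (z * g) = mt (g * z) := by
      have e1 : mt (z * g) = mt z * mt g := rfl
      have e2 : mt (g * z) = mt g * mt z := rfl
      rw [e1, e2, hζ, smul_mul_assoc, mul_smul_comm, one_mul, mul_one]
    exact h1
  obtain ⟨lam, hlam, Om, hO, hp, hT, htop, f, hf, hfg, hf0, hfO, hfT⟩ :=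
    R990.TG.gap_fin (D := D) (m := m) μ (L := ld G) hβ hm hN ⟨0, hD⟩ hz hζ hζ1 hr hr2 hc
  refine ⟨lam, Om, ⟨hlam, hO, hp, hT, htop⟩, ⟨f, ⟨hf, hfg, hfO⟩, hf0, hfT⟩, fun M hM => ?_⟩
  have h1 := hfT.trans (hM f ⟨hf, hfg, hfO⟩)
  obtain ⟨q, hq⟩ : ∃ q : ℝ, q = (r : ℝ) ^ (D - 1) := ⟨_, rfl⟩
  have hr' : (1 : ℝ) ≤ r := by exact_mod_cast hr
  have hq1 : 1 ≤ q := by rw [hq]; exact one_le_pow₀ hr'
  rw [← hq] at h1 ⊢
  have hN' : (1 : ℝ) ≤ N := by exact_mod_cast hN
  have hm' : (2 : ℝ) ≤ m := by exact_mod_cast hm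
  have hD' : (1 : ℝ) ≤ D := by exact_mod_cast hD
  obtain ⟨ε, hε⟩ : ∃ ε : ℝ, ε = N * m / (β * q) := ⟨_, rfl⟩
  have e1 : 24 * N * m / (β * q) = 24 * ε := by rw [hε]; ring
  have e2 : 25 * N * m / (β * q) = 25 * ε := by rw [hε]; ring
  rw [e2]
  rw [e1] at h1
  have hε0 : 0 ≤ ε := by rw [hε]; positivity
  have hε1 : 23040 * ε ≤ 1 := by
    rw [hε, ← mul_div_assoc, div_le_one (by positivity)]
    have h2 : (1 : ℝ) ≤ D ^ 4 := one_le_pow₀ hD'
    have h3 : (m : ℝ) * 1 ≤ m * r := mul_le_mul_of_nonneg_left hr' (by linarith)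
    have h4 : (N : ℝ) * 1 ≤ N * D ^ 4 := mul_le_mul_of_nonneg_left h2 (by linarith)
    have h5 : (N * 1 : ℝ) * (m * 1) ≤ (N * D ^ 4) * (m * r) :=
      mul_le_mul h4 h3 (by linarith) (by positivity)
    have h6 : β * 1 ≤ β * q := mul_le_mul_of_nonneg_left hq1 hβ.le
    nlinarith
  have hpos : 0 < lam * integ μ (fun U => f U ^ 2) := mul_pos hlam hf0
  have h2 : (1 - 24 * ε) * (lam * integ μ (fun U => f U ^ 2)) ≤
      Real.exp (-M) * (lam * integ μ (fun U => f U ^ 2)) := by
    rw [← mul_assoc, ← mul_assoc]; exact h1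
  have h3 := le_of_mul_le_mul_right h2 hpos
  by_contra hc'
  push Not at hc'
  have h4 : Real.exp (-M) < Real.exp (-(25 * ε)) := Real.exp_lt_exp.2 (by linarith)
  have h5 : Real.exp (-(25 * ε)) ≤ 1 - 24 * ε := by
    have h6 : |-(25 * ε)| ≤ 1 := by
      rw [abs_neg, abs_of_nonneg (by linarith)]
      linarith
    have h7 := Real.abs_exp_sub_one_sub_id_le h6
    have h8 := (abs_le.1 h7).2
    nlinarith
  linarith

end

end Pool.Agent.Results.MP_7f377f_mp.FiniteVolumeGap
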