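import Mathlib
import Pool.Agent.Y14.Defs
import Pool.Agent.R990.MG.Main

/-!
# Lattice Yang-Mills theory: improved upper bound of the mass gap at weak coupling

Wilson's lattice gauge theory on the periodic lattice `(ℤ/l)^d`, `d = D + 1 ≥ 3`, with gauge group a
closed subgroup `G` of `U(N)` of positive dimension: the probability measure on `G ^ links` with
density proportional to `exp (-β ∑_p Re tr (1 - U_p))` with respect to the Haar measure. Let
`m(β) = log β / √β` for `d = 3` and `m(β) = (log β / β) ^ (1 / (d - 2))` for `d ≥ 4`; for example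
`m(β) = √(log β / β)` for `d = 4`. For all large `β` there is a local gauge invariant observable `F`,
supported in a cube of side at most `C / m(β)` in the time slice `0`, of variance at least `c > 0`,
such that the correlation coefficient of `F` and of its translate by `t` units of time is at least
`exp (- C m(β) t)` for odd `t`, in all volumes and in all infinite volume limits. Hence the mass gap,
the rate of exponential decay of the truncated time correlations, is at most `C m(β)`.
-/

open MeasureTheory Matrix Filter Pool.Agent.Y14.Wilson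
open scoped Matrix.Norms.Frobenius Topology

namespace Pool.Agent.Results.MP_7f377f_mp.MassGapSqrt

noncomputable section

/-- The bound `m(β)` in dimension `d = D + 1`: `log β / √β` for `d = 3` and
`(log β / β) ^ (1 / (d - 2))` for `d ≥ 4`. -/
def mb (D : ℕ) (β : ℝ) : ℝ :=
  if D = 2 then Real.log β / Real.sqrt β else (Real.log β / β) ^ (1 / ((D : ℝ) - 1))

theorem result {N n D : ℕ} (G : Subgroup (UU N)) (hG : IsClosed (G : Set (UU N)))
    [MeasurableSpace G] [BorelSpace G] (μ : Measure G) [IsProbabilityMeasure μ] [μ.IsHaarMeasure]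
    (B : LieBasis G n) (hn : 1 ≤ n) (hD : 2 ≤ D) :
    ∃ C c β₀ : ℝ, 0 < C ∧ 0 < c ∧ 1 < β₀ ∧ ∀ β : ℝ, β₀ ≤ β →
      (∃ (R : ℕ) (F : (LinkZ (D + 1) → G) → ℝ), (R : ℝ) * mb D β ≤ C ∧
        IsLocal R F ∧ AtTimeZero F ∧
        (∀ (l : ℕ) [NeZero l], Even l → R < l → c ≤ corr l μ β F 0 ∧ ∀ t : ℕ, Odd t → t < l →
          Real.exp (-(C * mb D β * t)) * corr l μ β F 0 ≤ corr l μ β F t) ∧
        ∀ ν : Measure (LinkZ (D + 1) → G), IsInfVol μ β ν → c ≤ corrZ ν F 0 ∧
          ∀ t : ℕ, Odd t → Real.exp (-(C * mb D β * t)) * corrZ ν F 0 ≤ corrZ ν F t) ∧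
      (∀ M : ℝ, Clusters D μ β M → M ≤ C * mb D β) ∧
      (∀ ν : Measure (LinkZ (D + 1) → G), IsInfVol μ β ν → ∀ M : ℝ, ClustersZ ν M →
        M ≤ C * mb D β) ∧
      ∃ ν : Measure (LinkZ (D + 1) → G), IsInfVol μ β ν :=
  Pool.Agent.MG990.Wilson.main G hG μ B hn hD

end

end Pool.Agent.Results.MP_7f377f_mp.MassGapSqrt
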